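import Pool.Agent.H158.RA.Stm

/-!
An irreducible associative bimodule over the 2 by 2 matrices is the row bimodule or the regular
bimodule.
-/

set_option autoImplicit false

namespace Pool.Agent.H297.RA

universe u v w

open Matrix Pool.Agent.H158.RA

variable {F : Type u} [Field F]

/-- the matrix units -/
abbrev E (i j : Fin 2) : Mat2 F := Matrix.single i j (1 : F)

lemma E_sum : (E 0 0 + E 1 1 : Mat2 F) = 1 := by
  ext x y
  fin_cases x <;> fin_cases y <;> simp [E]

lemma E_mul (i j k : Fin 2) : (E i j * E j k : Mat2 F) = E i k := by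
  rw [E, E, Matrix.single_mul_single_same, one_mul]

lemma E_mul_ne {j k : Fin 2} (h : j ≠ k) (i l : Fin 2) : (E i j * E k l : Mat2 F) = 0 :=
  Matrix.single_mul_single_of_ne _ _ _ _ h _

/-- a nonzero homomorphism to an irreducible bimodule is an isomorphism if it is injective -/
lemma iso_of {M : Bimod.{u, v} F} {M' : Bimod.{u, w} F} (hM : M.IsIrred)
    (f : M'.carrier →ₗ[F] M.carrier) (hl : ∀ a m, f (M'.left a m) = M.left a (f m))
    (hr : ∀ a m, f (M'.right a m) = M.right a (f m)) (hi : ∀ m, f m = 0 → m = 0)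
    (h0 : ∃ m, f m ≠ 0) : M.Iso M' := by
  have hsub : M.IsSub (LinearMap.range f) := by
    rintro a _ ⟨m, rfl⟩
    exact ⟨⟨_, hl a m⟩, ⟨_, hr a m⟩⟩
  have htop : LinearMap.range f = ⊤ := by
    rcases hM.2 _ hsub with h | h
    · exfalso
      obtain ⟨m, hm⟩ := h0
      apply hm
      have h1 : f m ∈ LinearMap.range f := ⟨m, rfl⟩
      rw [h] at h1
      exact (Submodule.mem_bot F).1 h1
    · exact h
  have hinj : Function.Injective f := by
    rw [← LinearMap.ker_eq_bot, LinearMap.ker_eq_bot']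
    exact hi
  let e : M'.carrier ≃ₗ[F] M.carrier :=
    LinearEquiv.ofBijective f ⟨hinj, LinearMap.range_eq_top.1 htop⟩
  refine ⟨e.symm, fun a m => ?_⟩
  obtain ⟨x, rfl⟩ := e.surjective m
  constructor
  · have h1 : M.left a (e x) = e (M'.left a x) := (hl a x).symm
    rw [h1, LinearEquiv.symm_apply_apply, LinearEquiv.symm_apply_apply]
  · have h1 : M.right a (e x) = e (M'.right a x) := (hr a x).symm
    rw [h1, LinearEquiv.symm_apply_apply, LinearEquiv.symm_apply_apply]

/-- a vector fixed by the first idempotent on the right -/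
lemma exists_right {M : Bimod.{u, v} F} (h1 : ∀ m, M.right 1 m = m)
    (hR : ∀ (a b : Mat2 F) (m : M.carrier), M.right (a * b) m = M.right b (M.right a m))
    {m : M.carrier} (hm : m ≠ 0) : ∃ i, M.right (E i 0) m ≠ 0 := by
  by_contra hcon
  push Not at hcon
  apply hm
  rw [← h1 m, ← E_sum, map_add, LinearMap.add_apply, hcon 0, zero_add, ← E_mul 1 0 1, hR, hcon 1,
    map_zero]

lemma exists_left {M : Bimod.{u, v} F} (h1 : ∀ m, M.left 1 m = m)
    (hL : ∀ (a b : Mat2 F) (m : M.carrier), M.left (a * b) m = M.left a (M.left b m))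
    {m : M.carrier} (hm : m ≠ 0) : ∃ i, M.left (E 0 i) m ≠ 0 := by
  by_contra hcon
  push Not at hcon
  apply hm
  rw [← h1 m, ← E_sum, map_add, LinearMap.add_apply, hcon 0, zero_add, ← E_mul 1 0 1, hL, hcon 1,
    map_zero]

/-- the matrix with a given first row -/
def rw0 : (Fin 2 → F) →ₗ[F] Mat2 F where
  toFun r := Matrix.of ![r, 0]
  map_add' r s := by
    ext x y
    fin_cases x <;> simp
  map_smul' c r := by
    ext x y
    fin_cases x <;> simp

lemma rw0_mul (r : Fin 2 → F) (a : Mat2 F) : rw0 r * a = rw0 (r ᵥ* a) := by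
  ext x y
  fin_cases x
  · simp [rw0, Matrix.mul_apply, Matrix.vecMul, dotProduct]
  · simp [rw0, Matrix.mul_apply]

lemma rw0_E (r : Fin 2 → F) (j : Fin 2) : rw0 r * E j 0 = r j • (E 0 0 : Mat2 F) := by
  ext x y
  fin_cases x <;> fin_cases y <;> fin_cases j <;>
    simp [rw0, Matrix.mul_apply, E, Matrix.single_apply]

lemma rw0_single : (rw0 (Pi.single 0 1) : Mat2 F) = E 0 0 := by
  ext x y
  fin_cases x <;> fin_cases y <;> simp [rw0, E]

lemma E_mul_sum (j : Fin 2) (b : Mat2 F) : E 0 j * b = ∑ k, b j k • (E 0 k : Mat2 F) := by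
  ext x y
  fin_cases x <;> fin_cases y <;> fin_cases j <;>
    simp [Matrix.mul_apply, E, Matrix.single_apply, Fin.sum_univ_two]

lemma mul_E_sum (k : Fin 2) (b : Mat2 F) : b * E k 0 = ∑ j, b j k • (E j 0 : Mat2 F) := by
  ext x y
  fin_cases x <;> fin_cases y <;> fin_cases k <;>
    simp [Matrix.mul_apply, E, Matrix.single_apply, Fin.sum_univ_two]

lemma E_mul_E (i j : Fin 2) (a : Mat2 F) : E 0 i * a * E j 0 = a i j • (E 0 0 : Mat2 F) := by
  ext x y
  fin_cases x <;> fin_cases y <;> fin_cases i <;> fin_cases j <;>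
    simp [Matrix.mul_apply, E, Matrix.single_apply, Fin.sum_univ_two]

/-- the case of zero left action -/
lemma row_case {M : Bimod.{u, v} F} (hM : M.IsIrred) (h1 : ∀ m, M.right 1 m = m)
    (hR : ∀ (a b : Mat2 F) (m : M.carrier), M.right (a * b) m = M.right b (M.right a m))
    (hL : ∀ (a : Mat2 F) (m : M.carrier), M.left a m = 0) : M.Iso (rowB F) := by
  obtain ⟨m, hm⟩ := @exists_ne _ hM.1 (0 : M.carrier)
  obtain ⟨i, hi⟩ := exists_right h1 hR hm
  obtain ⟨v, hv⟩ : ∃ v, v = M.right (E i 0) m := ⟨_, rfl⟩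
  rw [← hv] at hi
  have hv0 : M.right (E 0 0) v = v := by
    rw [hv, ← hR, E_mul]
  let f : (Fin 2 → F) →ₗ[F] M.carrier := (M.right.flip v).comp rw0
  have hf : ∀ r, f r = M.right (rw0 r) v := fun r => rfl
  refine iso_of (M' := rowB F) hM f ?_ ?_ ?_ ?_
  · intro a r
    rw [hL]
    change f 0 = 0
    exact map_zero f
  · intro a r
    change f (r ᵥ* a) = M.right a (f r)
    rw [hf, hf, ← hR, rw0_mul]
  · intro r hr
    change f r = 0 at hr
    change r = (0 : Fin 2 → F)
    funext j
    have h2 : r j • v = 0 := by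
      rw [hf] at hr
      have h3 := congrArg (M.right (E j 0)) hr
      rw [← hR, rw0_E, map_smul, LinearMap.smul_apply, hv0, map_zero] at h3
      exact h3
    exact (smul_eq_zero.1 h2).resolve_right hi
  · refine ⟨(Pi.single 0 1 : Fin 2 → F), ?_⟩
    change f (Pi.single 0 1) ≠ 0
    rw [hf, rw0_single, hv0]
    exact hi

/-- the case of unital left action -/
lemma reg_case {M : Bimod.{u, v} F} (hM : M.IsIrred) (h1 : ∀ m, M.right 1 m = m)
    (h1' : ∀ m, M.left 1 m = m)
    (hR : ∀ (a b : Mat2 F) (m : M.carrier), M.right (a * b) m = M.right b (M.right a m))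
    (hL : ∀ (a b : Mat2 F) (m : M.carrier), M.left (a * b) m = M.left a (M.left b m))
    (hLR : ∀ (a b : Mat2 F) (m : M.carrier), M.left a (M.right b m) = M.right b (M.left a m)) :
    M.Iso (regB F) := by
  obtain ⟨m, hm⟩ := @exists_ne _ hM.1 (0 : M.carrier)
  obtain ⟨j, hj⟩ := exists_right h1 hR hm
  obtain ⟨i, hi⟩ := exists_left h1' hL hj
  obtain ⟨v, hv⟩ : ∃ v, v = M.left (E 0 i) (M.right (E j 0) m) := ⟨_, rfl⟩
  rw [← hv] at hi
  have hvl : M.left (E 0 0) v = v := by
    rw [hv, ← hL, E_mul]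
  have hvr : M.right (E 0 0) v = v := by
    rw [hv, ← hLR, ← hR, E_mul]
  let f : Mat2 F →ₗ[F] M.carrier := ∑ k : Fin 2,
    (M.left.flip (M.right (E 0 k) v)).comp (LinearMap.mulRight F (E k 0 : Mat2 F))
  have hf : ∀ a, f a = ∑ k : Fin 2, M.left (a * E k 0) (M.right (E 0 k) v) := by
    intro a
    change (∑ k : Fin 2, (M.left.flip (M.right (E 0 k) v)).comp
      (LinearMap.mulRight F (E k 0 : Mat2 F))) a = _
    rw [LinearMap.sum_apply]
    rfl
  have hinj0 : ∀ (a : Mat2 F), f a = 0 → ∀ p q : Fin 2, a p q = 0 := by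
    intro a ha p q
    have h2 : a p q • v = 0 := by
      have h3 : M.left (E 0 p) (M.right (E q 0) (f a)) = 0 := by
        rw [ha, map_zero, map_zero]
      rw [hf, map_sum, map_sum, Finset.sum_eq_single q] at h3
      · rw [← hLR, ← hR, ← hL, E_mul, hvr, ← mul_assoc, E_mul_E, map_smul, LinearMap.smul_apply,
          hvl] at h3
        exact h3
      · intro k _ hk
        rw [← hLR, ← hR, E_mul_ne hk, map_zero, LinearMap.zero_apply, map_zero, map_zero]
      · intro h
        exact absurd (Finset.mem_univ _) h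
    exact (smul_eq_zero.1 h2).resolve_right hi
  refine iso_of (M' := regB F) hM f ?_ ?_ ?_ ?_
  · intro b (a : Mat2 F)
    change f (b * a) = M.left b (f a)
    rw [hf, hf, map_sum]
    refine Finset.sum_congr rfl fun k _ => ?_
    rw [mul_assoc, hL]
  · intro b (a : Mat2 F)
    change f (a * b) = M.right b (f a)
    rw [hf, hf, map_sum]
    have e1 : ∀ k : Fin 2, M.right b (M.left (a * E k 0) (M.right (E 0 k) v)) =
        ∑ l : Fin 2, b k l • M.left (a * E k 0) (M.right (E 0 l) v) := by
      intro k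
      rw [← hLR, ← hR, E_mul_sum, map_sum, LinearMap.sum_apply, map_sum]
      refine Finset.sum_congr rfl fun l _ => ?_
      rw [map_smul, LinearMap.smul_apply, map_smul]
    have e2 : ∀ l : Fin 2, M.left (a * b * E l 0) (M.right (E 0 l) v) =
        ∑ k : Fin 2, b k l • M.left (a * E k 0) (M.right (E 0 l) v) := by
      intro l
      rw [mul_assoc, mul_E_sum, Finset.mul_sum, map_sum, LinearMap.sum_apply]
      refine Finset.sum_congr rfl fun k _ => ?_
      rw [mul_smul_comm, map_smul, LinearMap.smul_apply]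
    rw [Finset.sum_congr rfl fun k _ => e1 k, Finset.sum_congr rfl fun l _ => e2 l,
      Finset.sum_comm]
  · intro (a : Mat2 F) ha
    change f a = 0 at ha
    change a = (0 : Mat2 F)
    exact Matrix.ext fun p q => hinj0 a ha p q
  · refine ⟨(E 0 0 : Mat2 F), ?_⟩
    change f (E 0 0) ≠ 0
    rw [hf, Fin.sum_univ_two, E_mul, hvr, hvl, E_mul_ne (by decide), map_zero,
      LinearMap.zero_apply, add_zero]
    exact hi

theorem t : S_assoc.{u, v} := by
  intro F _ M hM h1 h
  have hR : ∀ (a b : Mat2 F) (m : M.carrier), M.right (a * b) m = M.right b (M.right a m) :=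
    fun a b m => (h a b m).1
  have hL : ∀ (a b : Mat2 F) (m : M.carrier), M.left (a * b) m = M.left a (M.left b m) :=
    fun a b m => (h a b m).2.1
  have hLR : ∀ (a b : Mat2 F) (m : M.carrier), M.left a (M.right b m) = M.right b (M.left a m) :=
    fun a b m => (h a b m).2.2
  have hsub : M.IsSub (LinearMap.ker (M.left 1)) := by
    intro a m hm
    rw [LinearMap.mem_ker] at hm
    constructor
    · rw [LinearMap.mem_ker, ← hL, one_mul]
      have h2 := hL a 1 m
      rw [mul_one, hm, map_zero] at h2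
      exact h2
    · rw [LinearMap.mem_ker, hLR, hm, map_zero]
  rcases hM.2 _ hsub with h0 | h0
  · right
    refine reg_case hM h1 (fun m => ?_) hR hL hLR
    have h2 : M.left 1 m - m ∈ LinearMap.ker (M.left 1) := by
      rw [LinearMap.mem_ker, map_sub, ← hL, one_mul, sub_self]
    rw [h0] at h2
    exact sub_eq_zero.1 ((Submodule.mem_bot F).1 h2)
  · left
    refine row_case hM h1 hR (fun a m => ?_)
    have h2 : m ∈ LinearMap.ker (M.left 1) := by
      rw [h0]
      exact Submodule.mem_top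
    have h3 := hL a 1 m
    rw [mul_one, LinearMap.mem_ker.1 h2, map_zero] at h3
    exact h3

end Pool.Agent.H297.RA
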